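import Pool.Agent.Helper77_WR2.CMO

/-!
WR2: the number of pairs (l, b) at level n is at most K(a) times the number of the predecessors b
(also for periodic a); general X version of COR and its consequences.
-/

set_option autoImplicit false

namespace Pool.Agent.WR2.H33

open Pool.Agent.WIR Pool.Agent.WR2
open scoped BigOperators ENNReal

theorem od_mul (p a k : ℕ) (h : T^[p] a = a) : od (k * p) a = k * od p a ∧ T^[k * p] a = a := by
  induction k with
  | zero =>
    rw [zero_mul, zero_mul]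
    exact ⟨rfl, rfl⟩
  | succ k ih =>
    have e : (k + 1) * p = k * p + p := by ring
    rw [e]
    constructor
    · rw [H77.od_add, h, ih.1]
      ring
    · rw [Function.iterate_add_apply, h, ih.2]

theorem two_pow_gt (pre : PreStmt) (p a : ℕ) (ha : 0 < a) (hp : 0 < p) (h : T^[p] a = a) :
    3 ^ od p a < 2 ^ p := by
  obtain ⟨p1, p2, -, -⟩ := pre
  have h1 : a ∈ Pre p (od p a) a := (p1 _ _ _ _).2 ⟨ha, h, rfl⟩
  have h2 := p2 _ _ _ _ h1
  have h3 : 3 ^ od p a ≤ 2 ^ p := Nat.le_of_mul_le_mul_right h2 ha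
  rcases lt_or_eq_of_le h3 with h4 | h4
  · exact h4
  · exfalso
    have h5 : Odd (3 ^ od p a) := Odd.pow (by decide)
    have h6 : Even (2 ^ p) := (Nat.even_pow.2 ⟨by decide, by omega⟩)
    rw [h4] at h5
    exact (Nat.not_odd_iff_even.2 h6) h5

theorem bern (N k : ℕ) (hN : 0 < N) (M : ℕ) (hM : N < M) (hk : M ^ k < 2 * N ^ k) : k < N := by
  by_contra hcon
  push Not at hcon
  have h1 : (N + 1) ^ k ≤ M ^ k := Nat.pow_le_pow_left hM k
  have h2 : (N + k) * N ^ k ≤ N * (N + 1) ^ k := by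
    clear hk h1 hcon
    induction k with
    | zero => simp
    | succ k ih =>
      calc (N + (k + 1)) * N ^ (k + 1) ≤ (N + 1) * ((N + k) * N ^ k) := by
            rw [pow_succ]
            nlinarith [Nat.zero_le (k * N ^ k), Nat.zero_le (N ^ k)]
        _ ≤ (N + 1) * (N * (N + 1) ^ k) := Nat.mul_le_mul_left _ ih
        _ = N * (N + 1) ^ (k + 1) := by ring
  have h3 : N * (N + 1) ^ k ≤ N * M ^ k := Nat.mul_le_mul_left _ h1
  have h4 : N * M ^ k < N * (2 * N ^ k) := (Nat.mul_lt_mul_left hN).2 hk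
  have h5 : N * (2 * N ^ k) ≤ (N + k) * N ^ k := by nlinarith [Nat.zero_le (N ^ k)]
  omega

theorem mz_strict (n : ℕ) {l l' : ℕ} (h : l < l') : Mz n l < Mz n l' := by
  unfold Mz
  have h1 : Nat.log 2 (3 ^ l) + 1 ≤ Nat.log 2 (3 ^ l') := by
    apply Nat.le_log_of_pow_le (by norm_num)
    have h2 : 2 ^ Nat.log 2 (3 ^ l) ≤ 3 ^ l := Nat.pow_log_le_self 2 (by positivity)
    calc 2 ^ (Nat.log 2 (3 ^ l) + 1) = 2 ^ Nat.log 2 (3 ^ l) * 2 := pow_succ _ _
      _ ≤ 3 ^ l * 3 := Nat.mul_le_mul h2 (by norm_num)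
      _ = 3 ^ (l + 1) := (pow_succ _ _).symm
      _ ≤ 3 ^ l' := Nat.pow_le_pow_right (by norm_num) h
  omega

open Classical in
/-- for every `a` there is a bound for the multiplicity -/
theorem pdd (pre : PreStmt) (flo : FloStmt) : ∀ a : ℕ, 0 < a → ∃ K : ℕ, 0 < K ∧ ∀ n L : ℕ,
    ∑ l ∈ Finset.range L, uT (Mz n l) l a
      ≤ K * ((Finset.Icc 1 (2 ^ n * a)).filter (fun b => ∃ j, T^[j] b = a)).card := by
  intro a ha
  set p0 := Function.minimalPeriod T a with hp0
  set q0 := od p0 a with hq0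
  refine ⟨3 ^ q0, by positivity, ?_⟩
  intro n L
  obtain ⟨p1, p2, p3, -⟩ := id pre
  obtain ⟨-, f2, -, -⟩ := flo
  set P := (Finset.Icc 1 (2 ^ n * a)).filter (fun b => ∃ j, T^[j] b = a) with hP
  have hsub : ∀ l, Pre (Mz n l) l a ⊆ P := by
    intro l b hb
    have hb1 := (p1 _ _ _ _).1 hb
    have hb2 := p2 _ _ _ _ hb
    rw [hP, Finset.mem_filter, Finset.mem_Icc]
    refine ⟨⟨hb1.1, ?_⟩, Mz n l, hb1.2.1⟩
    have h1 := (f2 n l).1
    have h2 : 3 ^ l * b ≤ 3 ^ l * (2 ^ n * a) := by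
      calc 3 ^ l * b ≤ 2 ^ Mz n l * a := hb2
        _ ≤ (2 ^ n * 3 ^ l) * a := Nat.mul_le_mul_right _ h1
        _ = 3 ^ l * (2 ^ n * a) := by ring
    exact Nat.le_of_mul_le_mul_left h2 (by positivity)
  have hsum : ∑ l ∈ Finset.range L, uT (Mz n l) l a
      = ∑ b ∈ P, ((Finset.range L).filter (fun l => b ∈ Pre (Mz n l) l a)).card := by
    have h1 : ∀ l, uT (Mz n l) l a = ∑ b ∈ P, if b ∈ Pre (Mz n l) l a then 1 else 0 := by
      intro l
      rw [p3, Finset.card_eq_sum_ones, ← Finset.sum_filter]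
      congr 1
      ext b
      rw [Finset.mem_filter]
      exact ⟨fun h => ⟨hsub l h, h⟩, fun h => h.2⟩
    rw [Finset.sum_congr rfl (fun l _ => h1 l), Finset.sum_comm]
    refine Finset.sum_congr rfl (fun b _ => ?_)
    rw [Finset.card_eq_sum_ones, Finset.sum_filter]
  rw [hsum, mul_comm]
  rw [← smul_eq_mul]
  apply Finset.sum_le_card_nsmul
  intro b _
  -- the set of the l for one b
  set S := (Finset.range L).filter (fun l => b ∈ Pre (Mz n l) l a) with hS
  rcases S.eq_empty_or_nonempty with he | hne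
  · rw [he, Finset.card_empty]
    exact Nat.zero_le _
  set l0 := S.min' hne with hl0
  have hl0S : l0 ∈ S := Finset.min'_mem _ _
  have hl0P : b ∈ Pre (Mz n l0) l0 a := (Finset.mem_filter.1 hl0S).2
  have hl0T := (p1 _ _ _ _).1 hl0P
  have key : ∀ l ∈ S, ∃ k : ℕ, k < 3 ^ q0 ∧ l = l0 + k * q0 := by
    intro l hl
    have hle : l0 ≤ l := Finset.min'_le _ _ hl
    have hlP : b ∈ Pre (Mz n l) l a := (Finset.mem_filter.1 hl).2
    have hlT := (p1 _ _ _ _).1 hlP
    have hMle : Mz n l0 ≤ Mz n l := by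
      rcases lt_or_eq_of_le hle with h | h
      · exact (mz_strict n h).le
      · rw [h]
    obtain ⟨s, hs⟩ := Nat.exists_eq_add_of_le hMle
    have hTs : T^[s] a = a := by
      have h1 := hlT.2.1
      rw [hs, add_comm, Function.iterate_add_apply, hl0T.2.1] at h1
      exact h1
    have hods : l = l0 + od s a := by
      have h1 := hlT.2.2
      rw [hs, add_comm, H77.od_add, hl0T.2.1, hl0T.2.2] at h1
      omega
    have hdvd : p0 ∣ s := Function.IsPeriodicPt.minimalPeriod_dvd hTs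
    obtain ⟨k, hk⟩ := hdvd
    have hTp : T^[p0] a = a := Function.isPeriodicPt_minimalPeriod T a
    have hodk : od s a = k * q0 := by
      rw [hk, mul_comm, (od_mul p0 a k hTp).1]
    rcases Nat.eq_zero_or_pos p0 with hp | hp
    · refine ⟨0, by positivity, ?_⟩
      rw [hk, hp, zero_mul] at hods
      rw [hods]
      simp [od]
    refine ⟨k, ?_, by rw [hods, hodk]⟩
    have hgt := two_pow_gt pre p0 a ha hp hTp
    refine bern (3 ^ q0) k (by positivity) (2 ^ p0) hgt ?_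
    -- 2^(k p0) < 2 * 3^(k q0)
    have h1 := (f2 n l).1
    have h2 := (f2 n l0).2
    have h3 : 2 ^ Mz n l = 2 ^ Mz n l0 * (2 ^ p0) ^ k := by
      rw [hs, pow_add, hk, pow_mul]
    have h4 : 3 ^ l = 3 ^ l0 * (3 ^ q0) ^ k := by
      rw [hods, hodk, pow_add, mul_comm k q0, pow_mul]
    rw [h3, h4] at h1
    have h5 : (0 : ℕ) < 2 ^ n * 3 ^ l0 := by positivity
    have h6 : 0 < (2 ^ p0) ^ k := by positivity
    have h7 : 2 ^ n * 3 ^ l0 * (2 ^ p0) ^ k < 2 ^ (Mz n l0 + 1) * (2 ^ p0) ^ k :=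
      (Nat.mul_lt_mul_right h6).2 h2
    have h8 : 2 ^ (Mz n l0 + 1) * (2 ^ p0) ^ k ≤ 2 * (2 ^ n * (3 ^ l0 * (3 ^ q0) ^ k)) := by
      rw [pow_succ]
      calc 2 ^ Mz n l0 * 2 * (2 ^ p0) ^ k = 2 * (2 ^ Mz n l0 * (2 ^ p0) ^ k) := by ring
        _ ≤ _ := Nat.mul_le_mul_left _ h1
    have h9 : 2 ^ n * 3 ^ l0 * (2 ^ p0) ^ k < 2 ^ n * 3 ^ l0 * (2 * (3 ^ q0) ^ k) := by
      calc _ < _ := h7
        _ ≤ _ := h8
        _ = _ := by ring
    exact Nat.lt_of_mul_lt_mul_left h9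
  have hcard : S.card ≤ (Finset.range (3 ^ q0)).card := by
    have himg : S ⊆ (Finset.range (3 ^ q0)).image (fun k => l0 + k * q0) := by
      intro l hl
      obtain ⟨k, hk1, hk2⟩ := key l hl
      rw [Finset.mem_image]
      exact ⟨k, Finset.mem_range.2 hk1, hk2.symm⟩
    exact (Finset.card_le_card himg).trans Finset.card_image_le
  rw [Finset.card_range] at hcard
  exact hcard

end Pool.Agent.WR2.H33
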