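import Pool.Agent.WR2.StmtsC
import Pool.Agent.Helper2_WIR.CDR

/-! WR2, row CNR (adapted from Helper2_WIR/CDR.lean). -/

set_option autoImplicit false

namespace Pool.Agent.WR2.H33

open Pool.Agent.WIR Pool.Agent.WR2 Pool.Agent.WIR.H2
open scoped BigOperators

theorem cnt_gen (M N : ℕ) (S : Set ℕ) (x : ZMod (3 ^ N)) [DecidablePred (fun O : Finset ℕ =>
      O.card ∈ S ∧ FO N O = x)] :
    cnt M S N x = ((Finset.Icc 1 M).powerset.filter
      (fun O => O.card ∈ S ∧ FO N O = x)).card := by
  unfold cnt
  refine congrArg Finset.card ?_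
  ext O
  simp only [Finset.mem_filter]

/-- **Row CNR**. -/
theorem cnr : CnrStmt := by
  classical
  intro l M a S ha
  have hpos : ∀ u : Finset ℕ, u ⊆ Finset.Icc 1 M → ∀ x ∈ u, 1 ≤ x := by
    intro u hu x hx
    exact (Finset.mem_Icc.1 (hu hx)).1
  have hsplit : cnt (M + 1) S (l + 1) ((a : ℕ) : ZMod (3 ^ (l + 1)))
      = cnt M S (l + 1) ((2 * a : ℕ) : ZMod (3 ^ (l + 1)))
      + ((Finset.Icc 1 M).powerset.filter (fun O => O.card + 1 ∈ S ∧
          3 * FO (l + 1) O = ((2 * a - 1 : ℕ) : ZMod (3 ^ (l + 1))))).card := by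
    rw [cnt_gen, cnt_gen]
    have hset : (Finset.Icc 1 (M + 1)).powerset.filter
        (fun O => O.card ∈ S ∧ FO (l + 1) O = ((a : ℕ) : ZMod (3 ^ (l + 1))))
        = ((Finset.Icc 1 M).powerset.filter
            (fun O => O.card ∈ S ∧
              FO (l + 1) O = ((2 * a : ℕ) : ZMod (3 ^ (l + 1))))).image (fun u => u.map sh)
          ∪ ((Finset.Icc 1 M).powerset.filter (fun O => O.card + 1 ∈ S ∧
              3 * FO (l + 1) O = ((2 * a - 1 : ℕ) : ZMod (3 ^ (l + 1))))).image
              (fun u => insert 1 (u.map sh)) := by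
      have hA : ∀ u : Finset ℕ, FO (l + 1) (u.map sh) = ((a : ℕ) : ZMod (3 ^ (l + 1))) ↔
          FO (l + 1) u = ((2 * a : ℕ) : ZMod (3 ^ (l + 1))) := by
        intro u
        rw [FO_sh, half_eq_iff]
        push_cast
        rfl
      have hB : ∀ u : Finset ℕ, (∀ x ∈ u, 1 ≤ x) →
          (FO (l + 1) (insert 1 (u.map sh)) = ((a : ℕ) : ZMod (3 ^ (l + 1))) ↔
            3 * FO (l + 1) u = ((2 * a - 1 : ℕ) : ZMod (3 ^ (l + 1)))) := by
        intro u hu
        rw [FO_ins _ u hu]
        have e1 : (2 : ZMod (3 ^ (l + 1)))⁻¹ + 3 * (2 : ZMod (3 ^ (l + 1)))⁻¹ * FO (l + 1) u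
            = (2 : ZMod (3 ^ (l + 1)))⁻¹ * (1 + 3 * FO (l + 1) u) := by ring
        rw [e1, half_eq_iff]
        have e2 : ((2 * a - 1 : ℕ) : ZMod (3 ^ (l + 1)))
            = 2 * ((a : ℕ) : ZMod (3 ^ (l + 1))) - 1 := by
          rw [Nat.cast_sub (by omega)]
          push_cast
          rfl
        rw [e2]
        constructor
        · intro h; rw [← h]; ring
        · intro h; rw [h]; ring
      ext O
      rw [Finset.mem_union, Finset.mem_image, Finset.mem_image, Finset.mem_filter,
        Finset.mem_powerset]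
      constructor
      · rintro ⟨hO, hc, hF⟩
        by_cases h1 : 1 ∈ O
        · right
          have hsub : O.erase 1 ⊆ (Finset.Icc 1 M).map sh := by
            rw [Icc_succ_eq] at hO
            intro x hx
            rw [Finset.mem_erase] at hx
            exact (Finset.mem_insert.1 (hO hx.2)).resolve_left hx.1
          obtain ⟨u, hu, hOu⟩ := Finset.subset_map_iff.1 hsub
          have hO' : O = insert 1 (u.map sh) := by
            rw [← hOu, Finset.insert_erase h1]
          refine ⟨u, ?_, hO'.symm⟩
          rw [Finset.mem_filter, Finset.mem_powerset]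
          refine ⟨hu, ?_, ?_⟩
          · rw [hO', Finset.card_insert_of_notMem (one_notMem_sh u (hpos u hu)),
              Finset.card_map] at hc
            exact hc
          · rw [hO'] at hF
            exact (hB u (hpos u hu)).1 hF
        · left
          have hsub : O ⊆ (Finset.Icc 1 M).map sh := by
            rw [Icc_succ_eq] at hO
            intro x hx
            refine (Finset.mem_insert.1 (hO hx)).resolve_left ?_
            rintro rfl
            exact h1 hx
          obtain ⟨u, hu, hOu⟩ := Finset.subset_map_iff.1 hsub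
          refine ⟨u, ?_, hOu.symm⟩
          rw [Finset.mem_filter, Finset.mem_powerset]
          refine ⟨hu, ?_, ?_⟩
          · rw [hOu, Finset.card_map] at hc
            exact hc
          · rw [hOu] at hF
            exact (hA u).1 hF
      · rintro (⟨u, hu, rfl⟩ | ⟨u, hu, rfl⟩)
        · rw [Finset.mem_filter, Finset.mem_powerset] at hu
          refine ⟨?_, ?_, (hA u).2 hu.2.2⟩
          · rw [Icc_succ_eq]
            exact (Finset.map_subset_map.2 hu.1).trans (Finset.subset_insert _ _)
          · rw [Finset.card_map]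
            exact hu.2.1
        · rw [Finset.mem_filter, Finset.mem_powerset] at hu
          refine ⟨?_, ?_, (hB u (hpos u hu.1)).2 hu.2.2⟩
          · rw [Icc_succ_eq]
            exact Finset.insert_subset_insert _ (Finset.map_subset_map.2 hu.1)
          · rw [Finset.card_insert_of_notMem (one_notMem_sh u (hpos u hu.1)), Finset.card_map]
            exact hu.2.1
    rw [hset, Finset.card_union_of_disjoint, Finset.card_image_of_injOn,
      Finset.card_image_of_injOn]
    · intro u hu v hv huv
      rw [Finset.mem_coe, Finset.mem_filter, Finset.mem_powerset] at hu hv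
      simp only at huv
      have e1 : (insert 1 (u.map sh)).erase 1 = (insert 1 (v.map sh)).erase 1 := by rw [huv]
      rw [Finset.erase_insert (one_notMem_sh u (hpos u hu.1)),
        Finset.erase_insert (one_notMem_sh v (hpos v hv.1))] at e1
      exact Finset.map_injective sh e1
    · intro u _ v _ huv
      exact Finset.map_injective sh huv
    · rw [Finset.disjoint_left]
      intro O hO1 hO2
      rw [Finset.mem_image] at hO1 hO2
      obtain ⟨u, hu, rfl⟩ := hO1
      obtain ⟨v, _, hv⟩ := hO2
      rw [Finset.mem_filter, Finset.mem_powerset] at hu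
      apply one_notMem_sh u (hpos u hu.1)
      rw [← hv]
      exact Finset.mem_insert_self _ _
  rw [hsplit]
  congr 1
  by_cases h3 : 3 ∣ 2 * a - 1
  · rw [if_pos h3]
    rw [cnt_gen]
    congr 1
    refine Finset.filter_congr ?_
    intro O _
    rw [three_mul_eq, cast_FO]
    constructor
    · rintro ⟨h4, _, h5⟩
      exact ⟨h4, h5⟩
    · rintro ⟨h4, h5⟩
      exact ⟨h4, h3, h5⟩
  · rw [if_neg h3, Finset.card_eq_zero, Finset.filter_eq_empty_iff]
    rintro O _ ⟨_, h5⟩
    exact h3 ((three_mul_eq _ _ _).1 h5).1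

end Pool.Agent.WR2.H33
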