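import Pool.Agent.Helper33_WR2.PDD

/-!
WR2: the core for all X, and its consequences for one integer.
-/

set_option autoImplicit false

namespace Pool.Agent.WR2.H33

open Pool.Agent.WIR Pool.Agent.WR2
open scoped BigOperators ENNReal

/-- the conclusion of COR for one integer -/
def Dense (c : ℝ) (n0 a : ℕ) : Prop :=
  ∀ n, n0 ≤ n → ∃ L : ℕ, c * 2 ^ n ≤ ∑ l ∈ Finset.range L, (uT (Mz n l) l a : ℝ)

open Classical in
theorem cor_allX (COR : CorStmt) : ∀ ε : ℝ, 0 < ε → ∃ c : ℝ, 0 < c ∧ ∃ n0 X0 : ℕ, ∀ X : ℕ, X0 ≤ X →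
    (((Finset.Icc 1 X).filter (fun a => ¬ 3 ∣ a ∧ ¬ Dense c n0 a)).card : ℝ) ≤ ε * X := by
  intro ε hε
  obtain ⟨c0, hc0, n0, q0, H⟩ := COR (ε / 3) (by positivity)
  refine ⟨c0, hc0, n0, 3 ^ q0, fun X hX => ?_⟩
  have hX1 : X ≠ 0 := by
    have : 0 < 3 ^ q0 := by positivity
    omega
  have hq1 : 3 ^ Nat.log 3 X ≤ X := Nat.pow_log_le_self 3 hX1
  have hq2 : X < 3 ^ (Nat.log 3 X + 1) := Nat.lt_pow_succ_log_self (by norm_num) X
  generalize Nat.log 3 X = q at hq1 hq2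
  have hq0 : q0 ≤ q + 1 := by
    by_contra hlt
    push Not at hlt
    have h1 : 3 ^ (q + 1) ≤ 3 ^ q0 := Nat.pow_le_pow_right (by norm_num) hlt.le
    omega
  have hcard := H (q + 1) hq0
  have hX3 : (3 : ℝ) ^ q ≤ X := by exact_mod_cast hq1
  refine le_trans (le_trans (Nat.cast_le.2 (Finset.card_le_card ?_)) hcard) ?_
  · intro a ha
    rw [Finset.mem_filter, Finset.mem_Icc] at ha
    obtain ⟨⟨ha1, haX⟩, ha3, hno⟩ := ha
    rw [Finset.mem_filter, Finset.mem_Icc]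
    refine ⟨⟨ha1, by omega⟩, ha3, ?_⟩
    by_contra hcon
    push Not at hcon
    exact hno hcon
  · rw [pow_succ]
    nlinarith

theorem dense_s (SBU : SbuStmt) (c0 : ℝ) (hc0 : 0 < c0) (n0 a : ℕ) (h : Dense c0 n0 a) (c : ℝ)
    (hc : 0 < c) (hc1 : c ≤ c0 / 64) : ∀ n, n0 < n → ENNReal.ofReal c * sbar n < sN n a := by
  intro n hn
  obtain ⟨L, hL⟩ := h n hn.le
  have hn1 : 1 ≤ n := by omega
  have h1 : ENNReal.ofReal (c0 * 2 ^ n) ≤ sN n a := by
    have h2 : ENNReal.ofReal (∑ l ∈ Finset.range L, (uT (Mz n l) l a : ℝ)) ≤ sN n a := by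
      rw [ENNReal.ofReal_sum_of_nonneg fun l _ => Nat.cast_nonneg _]
      have h3 : ∑ l ∈ Finset.range L, ENNReal.ofReal (uT (Mz n l) l a : ℝ)
          = ∑ l ∈ Finset.range L, (uT (Mz n l) l a : ℝ≥0∞) := by
        refine Finset.sum_congr rfl fun l _ => ?_
        exact ENNReal.ofReal_natCast _
      rw [h3]
      exact ENNReal.sum_le_tsum _
    exact le_trans (ENNReal.ofReal_le_ofReal hL) h2
  refine lt_of_lt_of_le ?_ h1
  refine lt_of_le_of_lt (mul_le_mul_right (SBU n hn1) _) ?_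
  rw [← ENNReal.ofReal_mul hc.le]
  have h2n : (0 : ℝ) < 2 ^ n := by positivity
  rw [ENNReal.ofReal_lt_ofReal_iff (by positivity)]
  nlinarith [mul_le_mul_of_nonneg_right hc1 h2n.le, mul_pos hc0 h2n]

open Classical in
/-- with the multiplicity bound K -/
theorem dense_pred (c0 : ℝ) (hc0 : 0 < c0) (n0 a K : ℕ) (ha : 0 < a) (hK : 0 < K)
    (h : Dense c0 n0 a) (hKb : ∀ n L : ℕ, ∑ l ∈ Finset.range L, uT (Mz n l) l a
      ≤ K * ((Finset.Icc 1 (2 ^ n * a)).filter (fun b => ∃ j, T^[j] b = a)).card)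
    (c : ℝ) (hc : 0 < c) (hc1 : c * K ≤ c0) (hc2 : c ≤ 1 / 2 ^ n0) :
    ∀ n : ℕ, c * 2 ^ n ≤
      (((Finset.Icc 1 (2 ^ n * a)).filter (fun b => ∃ j, T^[j] b = a)).card : ℝ) := by
  intro n
  have h2n : (0 : ℝ) < 2 ^ n := by positivity
  rcases lt_or_ge n n0 with hn | hn
  · have h1 : a ∈ (Finset.Icc 1 (2 ^ n * a)).filter (fun b => ∃ j, T^[j] b = a) := by
      rw [Finset.mem_filter, Finset.mem_Icc]
      refine ⟨⟨ha, ?_⟩, 0, rfl⟩
      exact Nat.le_mul_of_pos_left a (by positivity)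
    have h2 : (1 : ℝ) ≤ (((Finset.Icc 1 (2 ^ n * a)).filter
        (fun b => ∃ j, T^[j] b = a)).card : ℝ) := by
      exact_mod_cast Finset.card_pos.2 ⟨a, h1⟩
    refine le_trans ?_ h2
    have h3 : (2 : ℝ) ^ n ≤ 2 ^ n0 := pow_le_pow_right₀ (by norm_num) hn.le
    calc c * 2 ^ n ≤ (1 / 2 ^ n0) * 2 ^ n0 := by gcongr
      _ = 1 := by field_simp
  · obtain ⟨L, hL⟩ := h n hn
    have h1 := hKb n L
    set N := ((Finset.Icc 1 (2 ^ n * a)).filter (fun b => ∃ j, T^[j] b = a)).card with hN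
    have h2 : (∑ l ∈ Finset.range L, (uT (Mz n l) l a : ℝ)) ≤ K * N := by
      have h3 : ((∑ l ∈ Finset.range L, uT (Mz n l) l a : ℕ) : ℝ)
          = ∑ l ∈ Finset.range L, (uT (Mz n l) l a : ℝ) := by
        push_cast
        rfl
      rw [← h3]
      exact_mod_cast h1
    have hKr : (0 : ℝ) < K := by exact_mod_cast hK
    have h4 : (c * 2 ^ n) * K ≤ N * K := by
      calc (c * 2 ^ n) * K = (c * K) * 2 ^ n := by ring
        _ ≤ c0 * 2 ^ n := by gcongr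
        _ ≤ _ := hL
        _ ≤ K * N := h2
        _ = N * K := by ring
    exact le_of_mul_le_mul_right h4 hKr

end Pool.Agent.WR2.H33
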