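import Pool.Agent.WR2.StmtsC

/-! WR2, row LOP. -/

set_option autoImplicit false

namespace Pool.Agent.WR2.H33

open Pool.Agent.WIR Pool.Agent.WR2
open scoped BigOperators

theorem Lop_eq (f : ℕ → ℝ) : Lop f = fun m =>
    (f (2 * m) + 3 * (if 3 ∣ 2 * m - 1 then f ((2 * m - 1) / 3) else 0)) / 2 := by
  funext m
  unfold Lop
  split_ifs
  · rfl
  · rw [mul_zero]

theorem lop (PRE : PreStmt) (STP : StpStmt) (AVA : AvaStmt) (AVC : AvcStmt) : LopStmt := by
  obtain ⟨-, -, -, pre4⟩ := PRE
  obtain ⟨ava1, -, -, -⟩ := AVA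
  obtain ⟨avc1, avc2⟩ := AVC
  constructor
  · intro N f hf
    obtain ⟨h1, h2⟩ := avc1 N f hf
    obtain ⟨h3, h4⟩ := avc2 N f hf
    obtain ⟨h5, h6⟩ := ava1 N (N + 1) _ h1 (Nat.le_succ N)
    rw [Lop_eq]
    refine ⟨?_, ?_⟩
    · intro m hm
      have e1 := h5 m hm
      have e2 := h3 m hm
      simp only at e1 e2 ⊢
      rw [e1, e2]
    · rw [h2] at h6
      unfold av at h4 h6 ⊢
      rw [← Finset.sum_div, Finset.sum_add_distrib, ← Finset.mul_sum]
      have hp : (0 : ℝ) < 3 ^ (N + 1) := by positivity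
      rw [div_eq_iff hp.ne'] at h4 h6
      rw [h4, h6]
      field_simp
      ring
  · intro s
    induction s with
    | zero =>
      intro f m hm
      obtain ⟨h1, -, -⟩ := STP f m hm
      rw [Function.iterate_zero, id, zero_add, Finset.sum_range_one, h1 0, if_pos rfl]
      norm_num
    | succ s ih =>
      intro f m hm
      obtain ⟨-, h2, h3⟩ := STP f m hm
      rw [Function.iterate_succ_apply', Lop_eq]
      simp only
      have hzero : PS s (s + 1) f (2 * m) = 0 := by
        unfold PS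
        rw [pre4 s (s + 1) (2 * m) (Nat.lt_succ_self s), Finset.sum_empty]
      -- right-hand side
      have hR : ∑ l ∈ Finset.range (s + 1 + 1), (3 ^ l / 2 ^ (s + 1) : ℝ) * PS (s + 1) l f m
          = (∑ l ∈ Finset.range (s + 1), (3 ^ l / 2 ^ s : ℝ) * PS s l f (2 * m)) / 2
            + 3 * (∑ l ∈ Finset.range (s + 1), (3 ^ l / 2 ^ s : ℝ) *
              (if 3 ∣ 2 * m - 1 then PS s l f ((2 * m - 1) / 3) else 0)) / 2 := by
        rw [Finset.sum_range_succ', h2]
        have e1 : ∀ l ∈ Finset.range (s + 1), (3 ^ (l + 1) / 2 ^ (s + 1) : ℝ) *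
            PS (s + 1) (l + 1) f m = (3 ^ (l + 1) / 2 ^ (s + 1) : ℝ) * PS s (l + 1) f (2 * m)
            + (3 ^ (l + 1) / 2 ^ (s + 1) : ℝ) *
              (if 3 ∣ 2 * m - 1 then PS s l f ((2 * m - 1) / 3) else 0) := by
          intro l _
          rw [h3]
          ring
        rw [Finset.sum_congr rfl e1, Finset.sum_add_distrib]
        have e2 : (∑ l ∈ Finset.range (s + 1), (3 ^ l / 2 ^ s : ℝ) * PS s l f (2 * m)) / 2
            = ∑ l ∈ Finset.range (s + 1), (3 ^ (l + 1) / 2 ^ (s + 1) : ℝ) * PS s (l + 1) f (2 * m)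
              + (3 ^ 0 / 2 ^ (s + 1) : ℝ) * PS s 0 f (2 * m) := by
          rw [← Finset.sum_range_succ' (fun l => (3 ^ l / 2 ^ (s + 1) : ℝ) * PS s l f (2 * m)),
            Finset.sum_range_succ (fun l => (3 ^ l / 2 ^ (s + 1) : ℝ) * PS s l f (2 * m)), hzero,
            mul_zero, add_zero, Finset.sum_div]
          refine Finset.sum_congr rfl ?_
          intro l _
          rw [pow_succ]
          field_simp
        have e3 : 3 * (∑ l ∈ Finset.range (s + 1), (3 ^ l / 2 ^ s : ℝ) *
              (if 3 ∣ 2 * m - 1 then PS s l f ((2 * m - 1) / 3) else 0)) / 2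
            = ∑ l ∈ Finset.range (s + 1), (3 ^ (l + 1) / 2 ^ (s + 1) : ℝ) *
              (if 3 ∣ 2 * m - 1 then PS s l f ((2 * m - 1) / 3) else 0) := by
          rw [Finset.mul_sum, Finset.sum_div]
          refine Finset.sum_congr rfl ?_
          intro l _
          rw [pow_succ, pow_succ]
          field_simp
        rw [e2, e3]
        ring
      rw [hR, ih f (2 * m) (by omega)]
      by_cases h : 3 ∣ 2 * m - 1
      · have hpos : 0 < (2 * m - 1) / 3 := by
          obtain ⟨k, hk⟩ := h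
          omega
        rw [if_pos h, ih f _ hpos]
        have e4 : ∀ l ∈ Finset.range (s + 1), (3 ^ l / 2 ^ s : ℝ) *
            (if 3 ∣ 2 * m - 1 then PS s l f ((2 * m - 1) / 3) else 0)
            = (3 ^ l / 2 ^ s : ℝ) * PS s l f ((2 * m - 1) / 3) := by
          intro l _
          rw [if_pos h]
        rw [Finset.sum_congr rfl e4]
        ring
      · rw [if_neg h]
        have e4 : ∀ l ∈ Finset.range (s + 1), (3 ^ l / 2 ^ s : ℝ) *
            (if 3 ∣ 2 * m - 1 then PS s l f ((2 * m - 1) / 3) else 0) = 0 := by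
          intro l _
          rw [if_neg h, mul_zero]
        rw [Finset.sum_congr rfl e4, Finset.sum_const_zero]
        ring

end Pool.Agent.WR2.H33
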